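import Mathlib

/-!
# A conductor submonoid of `ℕ³` with infinite monotone catenary degree

Let `I ⊂ ℕ³` consist of the `(x, y, t)` with `t ≥ 3`, or `t = 2` and `x + y ≥ 2`, or `t = 1` and
`x, y ≥ 1`. This is an ideal of `ℕ³`, so `H = {0} ∪ I` is a conductor submonoid. For `m ≥ 6` the
element `(m, m, 5 m + 3)` has exactly two factorizations of length `m + 1`, namely
`(m,0,3) + m · (0,1,5)` and `(0,m,3) + m · (1,0,5)`. They have no atom in common.
-/

namespace Pool.Agent.Results.MP_d1ccd0_al.InfiniteMonotone

/-- `F` is factorial, that is `F ≅ Fˣ × 𝓕(P)`, and `F_red` is finitely generated, that is `P` is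
finite. -/
def IsFactorialFG (F : Type*) [CommMonoid F] : Prop :=
  ∃ P : Type, Finite P ∧ Nonempty (F ≃* Fˣ × Multiplicative (P →₀ ℕ))

/-- `H` is a conductor submonoid of `F`: `a F ⊆ H` for every non-invertible element `a` of `H`. -/
def IsConductorSubmonoid {F : Type*} [CommMonoid F] (H : Submonoid F) : Prop :=
  ∀ a : H, ¬ IsUnit a → ∀ f : F, (a : F) * f ∈ H

section defs

variable (H : Type*) [CommMonoid H]

/-- The atoms of `H_red = H / Hˣ`. -/
abbrev Atom := {a : Associates H // Irreducible a}

/-- The factorization monoid `Z(H) = 𝓕(𝓐(H_red))`: its elements are the finite multisets of atoms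
of `H_red`, the product in `Z(H)` is the sum of multisets, the length is the cardinality. -/
abbrev Fac := Multiset (Atom H)

variable {H}

/-- The set `Z(a)` of factorizations of `a`. -/
def Z (a : H) : Set (Fac H) := {z | (z.map Subtype.val).prod = Associates.mk a}

/-- The set `Z_k(a)` of factorizations of `a` of length `k`. -/
def Zk (a : H) (k : ℕ) : Set (Fac H) := {z | z ∈ Z a ∧ z.card = k}

/-- The set of lengths `L(a)`. -/
def L (a : H) : Set ℕ := {k | (Zk a k).Nonempty}

open Classical in
/-- The distance `d(z,z') = max (|g⁻¹z|, |g⁻¹z'|)`, `g = gcd(z,z')`. -/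
noncomputable def dist (z z' : Fac H) : ℕ := max (z - z ∩ z').card (z' - z ∩ z').card

/-- The distance `d(X,Y)` of two sets of factorizations. -/
noncomputable def setDist (X Y : Set (Fac H)) : ℕ∞ :=
  sInf {n : ℕ∞ | ∃ x ∈ X, ∃ y ∈ Y, n = (dist x y : ℕ∞)}

/-- There is a monotone `N`-chain in `Z(a)` from `z` to `z'`. -/
def MonChain (N : ℕ∞) (a : H) (z z' : Fac H) : Prop :=
  ∃ (r : ℕ) (c : ℕ → Fac H), c 0 = z ∧ c r = z' ∧ (∀ i ≤ r, c i ∈ Z a) ∧
    (∀ i < r, (dist (c i) (c (i + 1)) : ℕ∞) ≤ N) ∧
    ((∀ i < r, (c i).card ≤ (c (i + 1)).card) ∨ (∀ i < r, (c (i + 1)).card ≤ (c i).card))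

/-- `c_eq(a)`. -/
noncomputable def ceqAt (a : H) : ℕ∞ :=
  sInf {N : ℕ∞ | ∀ z ∈ Z a, ∀ z' ∈ Z a, z.card = z'.card → MonChain N a z z'}

/-- `k` and `l` are adjacent lengths of `a`. -/
def Adjacent (a : H) (k l : ℕ) : Prop :=
  k ∈ L a ∧ l ∈ L a ∧ k ≠ l ∧ ∀ j ∈ L a, ¬ (min k l < j ∧ j < max k l)

/-- `c_adj(a)`. -/
noncomputable def cadjAt (a : H) : ℕ∞ :=
  sSup {n : ℕ∞ | ∃ k l : ℕ, Adjacent a k l ∧ n = setDist (Zk a k) (Zk a l)}

variable (H)

/-- `c_eq(H)`. -/
noncomputable def ceq : ℕ∞ := ⨆ a : H, ceqAt a

/-- `c_adj(H)`. -/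
noncomputable def cadj : ℕ∞ := ⨆ a : H, cadjAt a

/-- The monotone catenary degree `c_mon(H)`. -/
noncomputable def cmon : ℕ∞ := max (ceq H) (cadj H)

end defs

/-! ### The example -/

/-- The free abelian monoid of rank `3`, written multiplicatively. -/
abbrev F := Multiplicative (Fin 3 →₀ ℕ)

/-- coordinates -/
def co (x : F) (i : Fin 3) : ℕ := (Multiplicative.toAdd x) i

@[simp] theorem co_one (i : Fin 3) : co 1 i = 0 := rfl

@[simp] theorem co_mul (x y : F) (i : Fin 3) : co (x * y) i = co x i + co y i := rfl

theorem co_ext {x y : F} (h0 : co x 0 = co y 0) (h1 : co x 1 = co y 1) (h2 : co x 2 = co y 2) :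
    x = y := by
  apply Multiplicative.toAdd.injective
  ext i
  fin_cases i
  · exact h0
  · exact h1
  · exact h2

/-- The element with given coordinates. -/
noncomputable def el (x y t : ℕ) : F :=
  Multiplicative.ofAdd (Finsupp.single 0 x + Finsupp.single 1 y + Finsupp.single 2 t)

@[simp] theorem co_el0 (x y t : ℕ) : co (el x y t) 0 = x := by
  simp [co, el]

@[simp] theorem co_el1 (x y t : ℕ) : co (el x y t) 1 = y := by
  simp [co, el]

@[simp] theorem co_el2 (x y t : ℕ) : co (el x y t) 2 = t := by
  simp [co, el]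

/-- The ideal `I`. -/
def InI (a : F) : Prop :=
  3 ≤ co a 2 ∨ (co a 2 = 2 ∧ 2 ≤ co a 0 + co a 1) ∨ (co a 2 = 1 ∧ 1 ≤ co a 0 ∧ 1 ≤ co a 1)

theorem InI.mul {a : F} (h : InI a) (f : F) : InI (a * f) := by
  unfold InI at *
  simp only [co_mul]
  omega

/-- The conductor submonoid `H`. -/
def H : Submonoid F where
  carrier := {a | a = 1 ∨ InI a}
  one_mem' := Or.inl rfl
  mul_mem' := by
    rintro a b (rfl | ha) hb
    · rwa [one_mul]
    · exact Or.inr (ha.mul b)

theorem mem_H {a : F} : a ∈ H ↔ a = 1 ∨ InI a := Iff.rfl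

theorem not_InI_one : ¬ InI 1 := by
  unfold InI
  simp only [co_one]
  omega

theorem eq_one_of_mul {a b : F} (h : a * b = 1) : a = 1 := by
  have h0 := congrArg (fun x => co x 0) h
  have h1 := congrArg (fun x => co x 1) h
  have h2 := congrArg (fun x => co x 2) h
  simp only [co_mul, co_one] at h0 h1 h2
  apply co_ext <;> simp only [co_one] <;> omega

theorem isUnit_H {a : H} : IsUnit a ↔ a = 1 := by
  constructor
  · rintro ⟨u, rfl⟩
    have : (u : H) * (u⁻¹ : Hˣ) = 1 := u.mul_inv
    have h1 := congrArg (fun x : H => (x : F)) this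
    simp only [Submonoid.coe_mul, Submonoid.coe_one] at h1
    exact Subtype.ext (eq_one_of_mul h1)
  · rintro rfl
    exact isUnit_one

theorem conductor : IsConductorSubmonoid H := by
  intro a ha f
  rw [isUnit_H] at ha
  rcases a.2 with h | h
  · exact absurd (Subtype.ext h) ha
  · exact Or.inr (h.mul f)

theorem factorial : IsFactorialFG F := by
  refine ⟨Fin 3, inferInstance, ?_⟩
  have : Unique Fˣ := by
    refine ⟨⟨1⟩, fun u => ?_⟩
    apply Units.ext
    exact eq_one_of_mul u.mul_inv
  exact ⟨(MulEquiv.uniqueProd : Fˣ × F ≃* F).symm⟩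

/-- `H → H_red` is an isomorphism. -/
noncomputable def eqv : H ≃* Associates H :=
  MulEquiv.ofBijective (Associates.mkMonoidHom : H →* Associates H) (by
    constructor
    · intro a b hab
      have h : Associates.mk a = Associates.mk b := hab
      rw [Associates.mk_eq_mk_iff_associated] at h
      obtain ⟨u, hu⟩ := h
      have := isUnit_H.1 u.isUnit
      rw [this, mul_one] at hu
      exact hu
    · intro b
      obtain ⟨a, rfl⟩ := Associates.mk_surjective b
      exact ⟨a, rfl⟩)

theorem eqv_apply (a : H) : eqv a = Associates.mk a := rfl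

/-- The element of `ℕ³` corresponding to an atom. -/
noncomputable def val (a : Atom H) : F := (eqv.symm a.1 : H)

theorem val_inj : Function.Injective val := by
  intro a b hab
  have h1 : eqv.symm a.1 = eqv.symm b.1 := Subtype.ext hab
  exact Subtype.ext (eqv.symm.injective h1)

theorem irr_iff (a : H) : Irreducible (Associates.mk a) ↔ Irreducible a := by
  rw [← eqv_apply]
  exact MulEquiv.irreducible_iff eqv

theorem val_irr (a : Atom H) : Irreducible (eqv.symm a.1 : H) := by
  have := a.2
  rwa [← MulEquiv.irreducible_iff eqv.symm] at this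

theorem val_InI (a : Atom H) : InI (val a) := by
  rcases (eqv.symm a.1 : H).2 with h | h
  · exfalso
    exact (val_irr a).not_isUnit (isUnit_H.2 (Subtype.ext h))
  · exact h

theorem val_not_mul (a : Atom H) (b c : F) (hb : InI b) (hc : InI c) : val a ≠ b * c := by
  intro h
  have h1 : (eqv.symm a.1 : H) = (⟨b, Or.inr hb⟩ : H) * ⟨c, Or.inr hc⟩ := Subtype.ext h
  rcases (val_irr a).isUnit_or_isUnit h1 with h2 | h2
  · have h3 : b = 1 := congrArg (fun x : H => (x : F)) (isUnit_H.1 h2)
    rw [h3] at hb
    exact not_InI_one hb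
  · have h3 : c = 1 := congrArg (fun x : H => (x : F)) (isUnit_H.1 h2)
    rw [h3] at hc
    exact not_InI_one hc

theorem irr_of {b : F} (hb : InI b) (h : ∀ c d, InI c → InI d → b ≠ c * d) :
    Irreducible (⟨b, Or.inr hb⟩ : H) := by
  refine ⟨fun hu => ?_, ?_⟩
  · have h3 : b = 1 := congrArg (fun x : H => (x : F)) (isUnit_H.1 hu)
    rw [h3] at hb
    exact not_InI_one hb
  · intro c d hcd
    by_contra hn
    rw [not_or, isUnit_H, isUnit_H] at hn
    have hc : InI (c : F) := c.2.resolve_left (fun h => hn.1 (Subtype.ext h))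
    have hd : InI (d : F) := d.2.resolve_left (fun h => hn.2 (Subtype.ext h))
    exact h c d hc hd (congrArg (fun x : H => (x : F)) hcd)

/-- The atom with given value. -/
noncomputable def mkAtom (b : F) (hb : InI b) (h : ∀ c d, InI c → InI d → b ≠ c * d) : Atom H :=
  ⟨Associates.mk ⟨b, Or.inr hb⟩, (irr_iff _).2 (irr_of hb h)⟩

theorem val_mkAtom (b : F) (hb : InI b) (h : ∀ c d, InI c → InI d → b ≠ c * d) :
    val (mkAtom b hb h) = b := by
  have : (eqv.symm (mkAtom b hb h).1 : H) = ⟨b, Or.inr hb⟩ := by
    rw [MulEquiv.symm_apply_eq]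
    rfl
  exact congrArg (fun x : H => (x : F)) this

/-! ### Constraints on atoms -/

theorem co2_le (a : Atom H) : co (val a) 2 ≤ 5 := by
  by_contra hlt
  refine val_not_mul a (el 0 0 3) (el (co (val a) 0) (co (val a) 1) (co (val a) 2 - 3)) ?_ ?_ ?_
  · left; simp
  · left; simp only [co_el2]; omega
  · apply co_ext <;> simp only [co_mul, co_el0, co_el1, co_el2] <;> omega

theorem co_five (a : Atom H) (h : co (val a) 2 = 5) : co (val a) 0 + co (val a) 1 ≤ 1 := by
  by_contra hlt
  refine val_not_mul a (el 0 0 3) (el (co (val a) 0) (co (val a) 1) 2) ?_ ?_ ?_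
  · left; simp
  · right; left; simp only [co_el0, co_el1, co_el2, true_and]; omega
  · apply co_ext <;> simp only [co_mul, co_el0, co_el1, co_el2] <;> omega

theorem co_four (a : Atom H) (h : co (val a) 2 = 4) : co (val a) 0 + co (val a) 1 ≤ 3 := by
  by_contra hlt
  by_cases h1 : 1 ≤ co (val a) 0 ∧ 1 ≤ co (val a) 1
  · refine val_not_mul a (el 0 0 3) (el (co (val a) 0) (co (val a) 1) 1) ?_ ?_ ?_
    · left; simp
    · right; right; simp only [co_el0, co_el1, co_el2, true_and]; omega
    · apply co_ext <;> simp only [co_mul, co_el0, co_el1, co_el2] <;> omega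
  · by_cases h2 : co (val a) 0 = 0
    · refine val_not_mul a (el 0 2 2) (el (co (val a) 0) (co (val a) 1 - 2) 2) ?_ ?_ ?_
      · right; left; simp
      · right; left; simp only [co_el0, co_el1, co_el2, true_and]; omega
      · apply co_ext <;> simp only [co_mul, co_el0, co_el1, co_el2] <;> omega
    · refine val_not_mul a (el 2 0 2) (el (co (val a) 0 - 2) (co (val a) 1) 2) ?_ ?_ ?_
      · right; left; simp
      · right; left; simp only [co_el0, co_el1, co_el2, true_and]; omega
      · apply co_ext <;> simp only [co_mul, co_el0, co_el1, co_el2] <;> omega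

theorem co_three (a : Atom H) (h : co (val a) 2 = 3) :
    co (val a) 0 = 0 ∨ co (val a) 1 = 0 ∨ co (val a) 0 + co (val a) 1 ≤ 3 := by
  by_contra hlt
  refine val_not_mul a (el 1 1 1) (el (co (val a) 0 - 1) (co (val a) 1 - 1) 2) ?_ ?_ ?_
  · right; right; simp
  · right; left; simp only [co_el0, co_el1, co_el2, true_and]; omega
  · apply co_ext <;> simp only [co_mul, co_el0, co_el1, co_el2] <;> omega

/-! ### Sums of coordinates -/

/-- The sum of the `i`-th coordinates of the atoms. -/
noncomputable def S (i : Fin 3) (z : Fac H) : ℕ := (z.map fun a => co (val a) i).sum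

theorem S_cons (i : Fin 3) (a : Atom H) (z : Fac H) : S i (a ::ₘ z) = co (val a) i + S i z := by
  simp [S]

theorem co_prod (z : Fac H) (i : Fin 3) : co (z.map val).prod i = S i z := by
  induction z using Multiset.induction_on with
  | empty => simp [S]
  | cons a z ih => rw [Multiset.map_cons, Multiset.prod_cons, co_mul, ih, S_cons]

theorem mem_Z_iff (z : Fac H) (a : H) : z ∈ Z a ↔ (z.map val).prod = (a : F) := by
  have h1 : ((eqv.symm (z.map Subtype.val).prod : H) : F) = (z.map val).prod := by
    rw [map_multiset_prod, Multiset.map_map]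
    have : ((((z.map (⇑eqv.symm ∘ Subtype.val)).prod : H)) : F) =
        ((z.map (⇑eqv.symm ∘ Subtype.val)).map (H.subtype)).prod := by
      rw [← map_multiset_prod]; rfl
    rw [this, Multiset.map_map]
    rfl
  rw [← h1]
  change (z.map Subtype.val).prod = Associates.mk a ↔ _
  rw [← eqv_apply]
  constructor
  · intro h
    rw [h, MulEquiv.symm_apply_apply]
  · intro h
    rw [← MulEquiv.symm_apply_eq]
    exact Subtype.ext h

/-- all atoms with third coordinate `5` -/
theorem all_five (z : Fac H) (h : S 2 z = 5 * z.card) :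
    (∀ a ∈ z, co (val a) 2 = 5) ∧ S 0 z + S 1 z ≤ z.card := by
  have hle : ∀ z : Fac H, S 2 z ≤ 5 * z.card := by
    intro z
    induction z using Multiset.induction_on with
    | empty => simp [S]
    | cons a z ih =>
      rw [S_cons, Multiset.card_cons]
      have := co2_le a
      omega
  induction z using Multiset.induction_on with
  | empty => simp [S]
  | cons a z ih =>
    rw [S_cons, Multiset.card_cons] at h
    have h1 := co2_le a
    have h2 := hle z
    have h3 : co (val a) 2 = 5 := by omega
    have h4 := ih (by omega)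
    refine ⟨?_, ?_⟩
    · intro b hb
      rcases Multiset.mem_cons.1 hb with rfl | hb
      · exact h3
      · exact h4.1 b hb
    · rw [S_cons, S_cons, Multiset.card_cons]
      have := co_five a h3
      omega

theorem exists_lt_five (z : Fac H) (h : S 2 z < 5 * z.card) : ∃ a ∈ z, co (val a) 2 < 5 := by
  by_contra hcon
  push Not at hcon
  have : 5 * z.card ≤ S 2 z := by
    clear h
    induction z using Multiset.induction_on with
    | empty => simp [S]
    | cons a z ih =>
      rw [S_cons, Multiset.card_cons]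
      have h1 := hcon a (Multiset.mem_cons_self a z)
      have h2 := ih (fun b hb => hcon b (Multiset.mem_cons_of_mem hb))
      omega
  omega

theorem S_le (z : Fac H) : S 2 z ≤ 5 * z.card := by
  induction z using Multiset.induction_on with
  | empty => simp [S]
  | cons a z ih =>
    rw [S_cons, Multiset.card_cons]
    have := co2_le a
    omega

theorem le_S (i : Fin 3) (z : Fac H) {a : Atom H} (ha : a ∈ z) : co (val a) i ≤ S i z := by
  obtain ⟨w, rfl⟩ := Multiset.exists_cons_of_mem ha
  rw [S_cons]
  omega

/-- if `z` consists of atoms with third coordinate `5`, no first coordinate and the sum of the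
second coordinates is the number of atoms then all atoms are `(0,1,5)`. -/
theorem all_eq (i : Fin 3) (z : Fac H) (hi : ∀ a ∈ z, co (val a) i ≤ 1) (h : S i z = z.card) :
    ∀ a ∈ z, co (val a) i = 1 := by
  induction z using Multiset.induction_on with
  | empty => intro a ha; simp at ha
  | cons a z ih =>
    rw [S_cons, Multiset.card_cons] at h
    have hle : S i z ≤ z.card := by
      have : ∀ z : Fac H, (∀ a ∈ z, co (val a) i ≤ 1) → S i z ≤ z.card := by
        intro z
        induction z using Multiset.induction_on with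
        | empty => simp [S]
        | cons b w ih' =>
          intro hw
          rw [S_cons, Multiset.card_cons]
          have h1 := hw b (Multiset.mem_cons_self b w)
          have h2 := ih' (fun c hc => hw c (Multiset.mem_cons_of_mem hc))
          omega
      exact this z (fun b hb => hi b (Multiset.mem_cons_of_mem hb))
    have h1 := hi a (Multiset.mem_cons_self a z)
    have h2 := ih (fun b hb => hi b (Multiset.mem_cons_of_mem hb)) (by omega)
    intro b hb
    rcases Multiset.mem_cons.1 hb with rfl | hb
    · omega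
    · exact h2 b hb

/-! ### The two factorizations -/

/-- `(m,0,3)` -/
noncomputable def a1 (m : ℕ) : Atom H := mkAtom (el m 0 3) (by left; simp) (by
  intro c d hc hd h
  have h0 := congrArg (fun x => co x 0) h
  have h1 := congrArg (fun x => co x 1) h
  have h2 := congrArg (fun x => co x 2) h
  simp only [co_mul, co_el0, co_el1, co_el2] at h0 h1 h2
  unfold InI at hc hd
  omega)

/-- `(0,m,3)` -/
noncomputable def a2 (m : ℕ) : Atom H := mkAtom (el 0 m 3) (by left; simp) (by
  intro c d hc hd h
  have h0 := congrArg (fun x => co x 0) h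
  have h1 := congrArg (fun x => co x 1) h
  have h2 := congrArg (fun x => co x 2) h
  simp only [co_mul, co_el0, co_el1, co_el2] at h0 h1 h2
  unfold InI at hc hd
  omega)

/-- `(0,1,5)` -/
noncomputable def b1 : Atom H := mkAtom (el 0 1 5) (by left; simp) (by
  intro c d hc hd h
  have h0 := congrArg (fun x => co x 0) h
  have h1 := congrArg (fun x => co x 1) h
  have h2 := congrArg (fun x => co x 2) h
  simp only [co_mul, co_el0, co_el1, co_el2] at h0 h1 h2
  unfold InI at hc hd
  omega)

/-- `(1,0,5)` -/
noncomputable def b2 : Atom H := mkAtom (el 1 0 5) (by left; simp) (by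
  intro c d hc hd h
  have h0 := congrArg (fun x => co x 0) h
  have h1 := congrArg (fun x => co x 1) h
  have h2 := congrArg (fun x => co x 2) h
  simp only [co_mul, co_el0, co_el1, co_el2] at h0 h1 h2
  unfold InI at hc hd
  omega)

theorem val_a1 (m : ℕ) : val (a1 m) = el m 0 3 := val_mkAtom _ _ _
theorem val_a2 (m : ℕ) : val (a2 m) = el 0 m 3 := val_mkAtom _ _ _
theorem val_b1 : val b1 = el 0 1 5 := val_mkAtom _ _ _
theorem val_b2 : val b2 = el 1 0 5 := val_mkAtom _ _ _

/-- first factorization -/
noncomputable def z1 (m : ℕ) : Fac H := a1 m ::ₘ Multiset.replicate m b1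
/-- second factorization -/
noncomputable def z2 (m : ℕ) : Fac H := a2 m ::ₘ Multiset.replicate m b2

/-- The element `(m, m, 5m+3)`. -/
noncomputable def w (m : ℕ) : H := ⟨el m m (5 * m + 3), Or.inr (by left; simp)⟩

theorem S_replicate (i : Fin 3) (m : ℕ) (a : Atom H) :
    S i (Multiset.replicate m a) = m * co (val a) i := by
  simp [S]

theorem z1_mem (m : ℕ) : z1 m ∈ Z (w m) := by
  rw [mem_Z_iff]
  apply co_ext <;> rw [co_prod] <;> simp only [z1, w, S_cons, S_replicate, val_a1, val_b1, co_el0,
    co_el1, co_el2] <;> ring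

theorem z2_mem (m : ℕ) : z2 m ∈ Z (w m) := by
  rw [mem_Z_iff]
  apply co_ext <;> rw [co_prod] <;> simp only [z2, w, S_cons, S_replicate, val_a2, val_b2, co_el0,
    co_el1, co_el2] <;> ring

theorem z1_card (m : ℕ) : (z1 m).card = m + 1 := by simp [z1]
theorem z2_card (m : ℕ) : (z2 m).card = m + 1 := by simp [z2]

theorem only_two {m : ℕ} (hm : 6 ≤ m) {z : Fac H} (hz : z ∈ Z (w m)) (hc : z.card = m + 1) :
    z = z1 m ∨ z = z2 m := by
  rw [mem_Z_iff] at hz
  have h0 : S 0 z = m := by rw [← co_prod, hz]; simp [w]
  have h1 : S 1 z = m := by rw [← co_prod, hz]; simp [w]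
  have h2 : S 2 z = 5 * m + 3 := by rw [← co_prod, hz]; simp [w]
  obtain ⟨a, ha, ha5⟩ := exists_lt_five z (by omega)
  obtain ⟨y, rfl⟩ := Multiset.exists_cons_of_mem ha
  rw [S_cons] at h0 h1 h2
  rw [Multiset.card_cons] at hc
  have hy := S_le y
  have ha3 : co (val a) 2 = 3 ∨ co (val a) 2 = 4 := by omega
  rcases ha3 with ha3 | ha4
  · have hy5 := all_five y (by omega)
    rcases co_three a ha3 with h | h | h
    · right
      have hy0 : S 0 y = m := by omega
      have hy1 : S 1 y = 0 := by omega
      have hav : a = a2 m := by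
        apply val_inj
        rw [val_a2]
        apply co_ext <;> simp only [co_el0, co_el1, co_el2] <;> omega
      rw [hav, z2]
      congr 1
      rw [Multiset.eq_replicate]
      refine ⟨by omega, fun b hb => ?_⟩
      have hb5 := hy5.1 b hb
      have hb01 := co_five b hb5
      have hb1 := le_S 1 y hb
      have hb0 := all_eq 0 y (fun c hc => by have := co_five c (hy5.1 c hc); omega) (by omega) b hb
      apply val_inj
      rw [val_b2]
      apply co_ext <;> simp only [co_el0, co_el1, co_el2] <;> omega
    · left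
      have hy0 : S 1 y = m := by omega
      have hy1 : S 0 y = 0 := by omega
      have hav : a = a1 m := by
        apply val_inj
        rw [val_a1]
        apply co_ext <;> simp only [co_el0, co_el1, co_el2] <;> omega
      rw [hav, z1]
      congr 1
      rw [Multiset.eq_replicate]
      refine ⟨by omega, fun b hb => ?_⟩
      have hb5 := hy5.1 b hb
      have hb01 := co_five b hb5
      have hb1 := le_S 0 y hb
      have hb0 := all_eq 1 y (fun c hc => by have := co_five c (hy5.1 c hc); omega) (by omega) b hb
      apply val_inj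
      rw [val_b1]
      apply co_ext <;> simp only [co_el0, co_el1, co_el2] <;> omega
    · exfalso
      omega
  · exfalso
    obtain ⟨b, hb, hb5⟩ := exists_lt_five y (by omega)
    obtain ⟨x, rfl⟩ := Multiset.exists_cons_of_mem hb
    rw [S_cons] at h0 h1 h2
    rw [Multiset.card_cons] at hc
    have hx := S_le x
    have hx5 := all_five x (by omega)
    have h3 := co_four a ha4
    have h4 := co_four b (by omega)
    omega

theorem dist_z {m : ℕ} (hm : 6 ≤ m) : m + 1 ≤ dist (z1 m) (z2 m) := by
  classical
  have hdis : z1 m ∩ z2 m = 0 := by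
    rw [Multiset.inter_eq_zero_iff_disjoint, Multiset.disjoint_left]
    intro a ha1 ha2
    have h1 : co (val a) 0 = m ∧ co (val a) 1 = 0 ∧ co (val a) 2 = 3 ∨
        co (val a) 0 = 0 ∧ co (val a) 1 = 1 ∧ co (val a) 2 = 5 := by
      rcases Multiset.mem_cons.1 ha1 with rfl | h
      · left; rw [val_a1]; simp
      · right; rw [Multiset.eq_of_mem_replicate h, val_b1]; simp
    have h2 : co (val a) 0 = 0 ∧ co (val a) 1 = m ∧ co (val a) 2 = 3 ∨
        co (val a) 0 = 1 ∧ co (val a) 1 = 0 ∧ co (val a) 2 = 5 := by
      rcases Multiset.mem_cons.1 ha2 with rfl | h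
      · left; rw [val_a2]; simp
      · right; rw [Multiset.eq_of_mem_replicate h, val_b2]; simp
    omega
  unfold dist
  have h3 : z1 m - z1 m ∩ z2 m = z1 m := by
    convert Multiset.sub_zero (z1 m) using 2
  rw [h3, z1_card]
  exact le_max_left _ _

theorem ceqAt_ge {m : ℕ} (hm : 6 ≤ m) : ((m : ℕ) : ℕ∞) ≤ ceqAt (w m) := by
  apply le_sInf
  intro N hN
  obtain ⟨r, c, h0, hr, hZ, hd, hmon⟩ := hN (z1 m) (z1_mem m) (z2 m) (z2_mem m)
    ((z1_card m).trans (z2_card m).symm)
  -- all lengths are `m + 1`
  have hlen : ∀ i ≤ r, (c i).card = m + 1 := by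
    rcases hmon with hmon | hmon
    · have h1 : ∀ i ≤ r, m + 1 ≤ (c i).card := by
        intro i
        induction i with
        | zero => intro _; rw [h0, z1_card]
        | succ i ih => intro hi; exact (ih (by omega)).trans (hmon i (by omega))
      have h2 : ∀ j i, i + j = r → (c i).card ≤ m + 1 := by
        intro j
        induction j with
        | zero => intro i hi; rw [add_zero] at hi; rw [hi, hr, z2_card]
        | succ j ih => intro i hi; exact (hmon i (by omega)).trans (ih (i + 1) (by omega))
      intro i hi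
      exact le_antisymm (h2 (r - i) i (by omega)) (h1 i hi)
    · have h1 : ∀ i ≤ r, (c i).card ≤ m + 1 := by
        intro i
        induction i with
        | zero => intro _; rw [h0, z1_card]
        | succ i ih => intro hi; exact (hmon i (by omega)).trans (ih (by omega))
      have h2 : ∀ j i, i + j = r → m + 1 ≤ (c i).card := by
        intro j
        induction j with
        | zero => intro i hi; rw [add_zero] at hi; rw [hi, hr, z2_card]
        | succ j ih => intro i hi; exact (ih (i + 1) (by omega)).trans (hmon i (by omega))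
      intro i hi
      exact le_antisymm (h1 i hi) (h2 (r - i) i (by omega))
  have hne : z1 m ≠ z2 m := by
    intro h
    have ha : a1 m ∈ z2 m := h ▸ Multiset.mem_cons_self _ _
    have h1 : co (val (a1 m)) 0 = m := by rw [val_a1]; simp
    rcases Multiset.mem_cons.1 ha with h2 | h2
    · rw [h2, val_a2, co_el0] at h1
      omega
    · rw [Multiset.eq_of_mem_replicate h2, val_b2, co_el0] at h1
      omega
  have key : ∃ i < r, c i = z1 m ∧ c (i + 1) = z2 m := by
    by_contra hcon
    push Not at hcon
    have : ∀ i ≤ r, c i = z1 m := by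
      intro i
      induction i with
      | zero => intro _; exact h0
      | succ i ih =>
        intro hi
        have h1 := ih (by omega)
        have h2 := hcon i (by omega) h1
        exact (only_two hm (hZ (i + 1) hi) (hlen (i + 1) hi)).resolve_right h2
    exact hne ((this r le_rfl).symm.trans hr)
  obtain ⟨i, hi, hi1, hi2⟩ := key
  have h1 := hd i hi
  rw [hi1, hi2] at h1
  have h2 := dist_z hm
  refine le_trans ?_ h1
  exact_mod_cast (by omega : m ≤ dist (z1 m) (z2 m))

theorem ceq_eq_top : ceq H = ⊤ := by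
  rw [ENat.eq_top_iff_forall_ge]
  intro m
  have h1 := ceqAt_ge (m := m + 6) (by omega)
  refine le_trans ?_ (h1.trans (le_iSup (fun a : H => ceqAt a) (w (m + 6))))
  exact_mod_cast (by omega : m ≤ m + 6)

/-- **Main theorem.** There are a factorial monoid `F` with `F_red` finitely generated and a
conductor submonoid `H` of `F` with `c_eq(H) = c_mon(H) = ∞`. -/
theorem result : ∃ (F : Type) (_ : CancelCommMonoid F) (H : Submonoid F),
    IsFactorialFG F ∧ IsConductorSubmonoid H ∧ ceq H = ⊤ ∧ cmon H = ⊤ := by
  refine ⟨F, CancelCommMonoid.mk, H, factorial, conductor, ceq_eq_top, ?_⟩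
  unfold cmon
  rw [show ceq H = ⊤ from ceq_eq_top]
  exact top_sup_eq _

end Pool.Agent.Results.MP_d1ccd0_al.InfiniteMonotone
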